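import Pool.Agent.Q266.FD.Fin
import Pool.Agent.Q247.FD.Sh
import Pool.Agent.Q247.FD.Dj
import Pool.Agent.Q247.FD.Qt
import Pool.Agent.Q247.FD.U1
import Pool.Agent.Q247.FD.Cn
import Pool.Agent.Q247.FD.Cv
import Pool.Agent.Q198.FD.Sub
import Pool.Agent.Q198.FD.Cx
import Pool.Agent.Q198.FD.Blk
import Pool.Agent.Q198.FD.Tw
import Pool.Agent.Q198.FD.Ex

/-!
Project FD: the final theorem.
-/

set_option autoImplicit false

open MeasureTheory Filter Topology Set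
open scoped ENNReal NNReal

namespace Pool.Agent.Q266.FD

open Pool.Agent.W811.Dos (upDim)

theorem final :
    (∀ lam : ℝ, 0 < lam → ∃ ν, IsDOS lam ν ∧ ∀ ν', IsDOS lam ν' → ν' = ν) ∧
    ∀ a b : ℝ, 0 < a → a ≤ b → ∀ μ ν : Measure ℝ, IsDOS a μ → IsDOS b ν → upDim ν ≤ upDim μ :=
  fin Pool.Agent.Q198.FD.sub Pool.Agent.Q198.FD.cx Pool.Agent.Q198.FD.blk Pool.Agent.Q198.FD.tw
    Pool.Agent.Q247.FD.sh Pool.Agent.Q247.FD.cn Pool.Agent.Q247.FD.dj Pool.Agent.Q247.FD.u1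
    Pool.Agent.Q247.FD.qt Pool.Agent.Q247.FD.cv Pool.Agent.Q198.FD.ex

end Pool.Agent.Q266.FD
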