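import Pool.Agent.Q266.FD.Stm

/-!
Project FD (helper266): assembly.
-/

set_option autoImplicit false

open MeasureTheory Filter Topology Set
open scoped ENNReal NNReal

namespace Pool.Agent.Q266.FD

open Pool.Agent.W745.Fib
open Pool.Agent.W811.Dos (upDim)

lemma tendsto_fib : Tendsto Nat.fib atTop atTop := by
  refine tendsto_atTop_mono (fun n => ?_) (tendsto_sub_atTop_nat 1)
  rcases Nat.lt_or_ge n 5 with h | h
  · interval_cases n <;> decide
  · exact (Nat.sub_le n 1).trans (Nat.le_fib_self h)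

/-- the zeros are distributed like the density of states measure -/
theorem near_of_dos (hCn : S_Cn) {lam : ℝ} (hlam : 0 < lam) {ν : Measure ℝ} (h : IsDOS lam ν) :
    ∃ C, Near lam ν C := by
  obtain ⟨C, hC⟩ := hCn lam hlam
  refine ⟨C, fun k hk x => ?_⟩
  exact hC x _ ((h.2 0 x).comp tendsto_fib) k hk

theorem main (hCn : S_Cn) (hMn : S_Mn) : ∀ a b : ℝ, 0 < a → a ≤ b → ∀ μ ν : Measure ℝ,
    IsDOS a μ → IsDOS b ν → upDim ν ≤ upDim μ := by
  intro a b ha hab μ ν hμ hν
  obtain ⟨C1, h1⟩ := near_of_dos hCn ha hμ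
  obtain ⟨C2, h2⟩ := near_of_dos hCn (lt_of_lt_of_le ha hab) hν
  exact hMn a b ha hab μ ν (max C1 C2) hμ.1 hν.1
    (fun k hk x => (h1 k hk x).trans (le_max_left _ _))
    (fun k hk x => (h2 k hk x).trans (le_max_right _ _))

theorem uniq {lam : ℝ} {μ ν : Measure ℝ} (hμ : IsDOS lam μ) (hν : IsDOS lam ν) : μ = ν := by
  have := hμ.1
  have := hν.1
  refine Measure.ext_of_Iic μ ν (fun x => ?_)
  have h := tendsto_nhds_unique (hμ.2 0 x) (hν.2 0 x)
  exact (ENNReal.toReal_eq_toReal_iff' (measure_ne_top _ _) (measure_ne_top _ _)).1 h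

end Pool.Agent.Q266.FD
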