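import Pool.Agent.Q266.FD.Stm

/-!
Project FD: the measure theoretic core.
-/

set_option autoImplicit false

open MeasureTheory Filter Topology Set
open scoped ENNReal NNReal

namespace Pool.Agent.Q266.FD

open Pool.Agent.W811.Dos (upDim)

theorem co (hS : S_St) (h1 : S_U1) (h2 : S_U2) : S_Co := by
  intro μ ν C f u v u' v' hF
  rcases le_or_gt 1 (upDim μ) with h | h
  · exact (Pool.Agent.W811.Dos.upDim_le_one ν).trans h
  obtain ⟨A, hA0, hS⟩ := hS C
  set t : ℝ := (upDim μ).toReal with ht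
  have hne : upDim μ ≠ ⊤ := ne_top_of_lt h
  have e : upDim μ = ENNReal.ofReal t := (ENNReal.ofReal_toReal hne).symm
  have ht0 : 0 ≤ t := ENNReal.toReal_nonneg
  have ht1 : t < 1 := by
    have := (ENNReal.toReal_lt_toReal hne ENNReal.one_ne_top).2 h
    rwa [ENNReal.toReal_one] at this
  have key : ∀ s : ℝ, t < s → s ≤ 1 → upDim ν ≤ ENNReal.ofReal s := by
    intro s hs hs1
    have hs0 : 0 < s := lt_of_le_of_lt ht0 hs
    refine h2 ν hF.pν s hs0 (fun ε hε => ?_)
    set K : ℝ := 1 + 2 * A / ε with hK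
    have hAe : 0 ≤ 2 * A / ε := by positivity
    have hK1 : 1 ≤ K := by rw [hK]; linarith
    have hK0 : 0 < K := by linarith
    have hAK : A / K ≤ ε / 2 := by
      rw [div_le_div_iff₀ hK0 (by norm_num : (0:ℝ) < 2)]
      have : ε * K = ε + 2 * A := by
        rw [hK]; field_simp
      linarith
    set δ : ℝ := min (ε / 2) (ε / (A * K + 1)) with hδ
    have hAK1 : 0 < A * K + 1 := by positivity
    have hδ0 : 0 < δ := lt_min (by positivity) (by positivity)
    have hδ1 : δ ≤ ε / 2 := min_le_left _ _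
    have hδ2 : A * K * δ ≤ ε := by
      have h3 : δ ≤ ε / (A * K + 1) := min_le_right _ _
      rw [le_div_iff₀ hAK1] at h3
      nlinarith
    obtain ⟨G, g1, g2, g3, g4⟩ := h1 μ hF.pμ t s e.le ht0 hs hs1 δ hδ0
    obtain ⟨F, f1, f2, f3⟩ := hS μ ν f u v u' v' hF s hs0 K hK1 G g1 g2
    refine ⟨F, f1, ?_, ?_⟩
    · have h3 : 0 ≤ A * K := by positivity
      exact f2.trans ((mul_le_mul_of_nonneg_left g3 h3).trans hδ2)
    · linarith
  rw [e]
  refine le_of_forall_gt_imp_ge_of_dense (fun r hr => ?_)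
  rcases le_or_gt 1 r with hr1 | hr1
  · exact (Pool.Agent.W811.Dos.upDim_le_one ν).trans hr1
  · have hrne : r ≠ ⊤ := ne_top_of_lt hr1
    have e2 : r = ENNReal.ofReal r.toReal := (ENNReal.ofReal_toReal hrne).symm
    have h3 : t < r.toReal := by
      rw [e2] at hr
      exact (ENNReal.ofReal_lt_ofReal_iff_of_nonneg ht0).1 hr
    have h4 : r.toReal ≤ 1 := by
      have := ENNReal.toReal_mono ENNReal.one_ne_top hr1.le
      rwa [ENNReal.toReal_one] at this
    rw [e2]
    exact key _ h3 h4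

end Pool.Agent.Q266.FD
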