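import Pool.Agent.Y662.FIB.Band
import Pool.Agent.W811.Dos.Final
import Pool.Agent.W382.Dos.Ud
import Pool.Agent.W688.Dos.ZC
import Pool.Agent.W688.Dos.WL

/-!
Project FD (helper266): the dimension of the density of states measure of the Fibonacci
Hamiltonian does not increase with the coupling. Definitions.
-/

set_option autoImplicit false

open MeasureTheory Filter Topology Set
open scoped ENNReal NNReal

namespace Pool.Agent.Q266.FD

open Pool.Agent.W745.Fib

/-- `α = (√5 - 1)/2` -/
noncomputable def alpha : ℝ := (Real.sqrt 5 - 1) / 2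

/-- the potential `lam χ_{[1-α,1)}(nα + ω mod 1)` -/
noncomputable def V (lam ω : ℝ) (n : ℤ) : ℝ :=
  if 1 - alpha ≤ Int.fract ((n : ℝ) * alpha + ω) then lam else 0

/-- the tridiagonal matrix with the diagonal `V 0, …, V (N - 1)` and ones beside the diagonal -/
def J (V : ℕ → ℝ) (N : ℕ) : Matrix (Fin N) (Fin N) ℝ := fun i j =>
  if i = j then V i else if (i : ℕ) + 1 = j ∨ (j : ℕ) + 1 = i then 1 else 0

open Classical in
/-- the number of the eigenvalues `≤ x` of `J V N`, with multiplicity -/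
noncomputable def cnt (V : ℕ → ℝ) (N : ℕ) (x : ℝ) : ℕ :=
  ((J V N).charpoly.roots.filter (fun y => y ≤ x)).card

open Classical in
/-- the number of the eigenvalues `≤ x` of a Hermitian matrix, with multiplicity -/
noncomputable def cntH {n : ℕ} (A : Matrix (Fin n) (Fin n) ℂ) (x : ℝ) : ℕ :=
  (A.charpoly.roots.filter (fun z : ℂ => z.re ≤ x)).card

/-- the potential over the sites `1, 2, …` for the phase `ω`, numbered from zero -/
noncomputable def Vn (lam ω : ℝ) (n : ℕ) : ℝ := V lam ω ((n : ℤ) + 1)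

/-- the number of the zeros `≤ x` of the trace polynomial of level `k` -/
noncomputable def zc (lam : ℝ) (k : ℕ) (x : ℝ) : ℕ := {E : ℝ | tr lam k E = 0 ∧ E ≤ x}.ncard

/-- `ν` is the density of states measure for the coupling `lam` -/
def IsDOS (lam : ℝ) (ν : Measure ℝ) : Prop :=
  IsProbabilityMeasure ν ∧ ∀ ω x : ℝ,
    Tendsto (fun N : ℕ => (cnt (Vn lam ω) N x : ℝ) / N) atTop (𝓝 (ν (Iic x)).toReal)

/-- the zeros are distributed like `ν`, with bounded error -/
def Near (lam : ℝ) (ν : Measure ℝ) (C : ℝ) : Prop :=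
  ∀ k : ℕ, 1 ≤ k → ∀ x : ℝ, |(zc lam k x : ℝ) - (ν (Iic x)).toReal * Nat.fib k| ≤ C

end Pool.Agent.Q266.FD
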