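import Pool.Agent.Q266.FD.Wd

/-!
Project FD: averages of the number of eigenvalues of boxes along the orbit, for every phase.
-/

set_option autoImplicit false

open MeasureTheory Filter Topology Set
open scoped ENNReal NNReal

namespace Pool.Agent.Q266.FD

open Pool.Agent.W688.Dos Pool.Agent.H84R3 Pool.Agent.H695R3.ST

lemma ud_phase {α : ℝ} (hα : Irrational α) (ω : ℝ) : UD (fun n => ω + n * α) := by
  refine ud_of_weyl _ (fun k hk => ?_)
  have h := (geo hα k hk).const_mul (ex (k * (ω - α)))
  rw [mul_zero] at h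
  refine h.congr (fun N => ?_)
  unfold A
  rw [mul_div_assoc', Finset.mul_sum]
  congr 1
  refine Finset.sum_congr rfl (fun n _ => ?_)
  rw [← ex_add]
  congr 1
  ring

lemma list_mem (b : ℕ → ℝ → Bool) (hb : ∀ j, (fun ω => if b j ω then (1 : ℝ) else 0) ∈ SS)
    (K : ℕ) : ∀ f : List Bool → ℝ, (fun ω => f ((List.range K).map (fun j => b j ω))) ∈ SS := by
  induction K with
  | zero =>
    intro f
    exact const_mem (f [])
  | succ K ih =>
    intro f
    have e : (fun ω => f ((List.range (K + 1)).map (fun j => b j ω))) =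
        (fun ω => if b K ω then (1 : ℝ) else 0) *
          (fun ω => f ((List.range K).map (fun j => b j ω) ++ [true])) +
        ((fun _ => (1 : ℝ)) - (fun ω => if b K ω then (1 : ℝ) else 0)) *
          (fun ω => f ((List.range K).map (fun j => b j ω) ++ [false])) := by
      funext ω
      simp only [List.range_succ, List.map_append, List.map_cons, List.map_nil, Pi.add_apply,
        Pi.mul_apply, Pi.sub_apply]
      by_cases h : b K ω = true
      · rw [h]; simp
      · rw [Bool.not_eq_true] at h
        rw [h]; simp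
    rw [e]
    exact add_mem (SS_mul (hb K) (ih (fun L => f (L ++ [true]))))
      (SS_mul (sub_mem (const_mem 1) (hb K)) (ih (fun L => f (L ++ [false]))))

lemma J_congr {V W : ℕ → ℝ} {N : ℕ} (h : ∀ n, n < N → V n = W n) : J V N = J W N := by
  funext i j
  unfold J
  rw [h i i.2]

lemma cnt_congr {V W : ℕ → ℝ} {N : ℕ} (h : ∀ n, n < N → V n = W n) (x : ℝ) :
    cnt V N x = cnt W N x := by
  unfold cnt
  rw [J_congr h]

lemma cnt_mem (lam : ℝ) (K : ℕ) (x : ℝ) : (fun ω => (cnt (Vn lam ω) K x : ℝ)) ∈ SS := by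
  classical
  set b : ℕ → ℝ → Bool := fun j ω =>
    decide (1 - alpha ≤ Int.fract ((((j : ℤ) + 1 : ℤ) : ℝ) * alpha + ω)) with hb
  have hbm : ∀ j, (fun ω => if b j ω then (1 : ℝ) else 0) ∈ SS := by
    intro j
    have h := pot_mem (lam := 1) alpha_pos alpha_lt ((j : ℤ) + 1)
    have e : (fun ω => pot 1 alpha ω ((j : ℤ) + 1)) = fun ω => if b j ω then (1 : ℝ) else 0 := by
      funext ω
      rw [← V_eq_pot]
      unfold V
      simp only [hb, decide_eq_true_eq]
    rwa [e] at h
  have h2 := list_mem b hbm K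
    (fun L => (cnt (fun n => if L.getD n false then lam else 0) K x : ℝ))
  convert h2 using 1
  funext ω
  congr 1
  refine cnt_congr (fun n hn => ?_) x
  have e1 : ((List.range K).map (fun j => b j ω)).getD n false = b n ω := by
    rw [List.getD_eq_getElem?_getD, List.getElem?_map, List.getElem?_range hn]
    rfl
  simp only [e1]
  unfold Vn V
  simp only [hb, decide_eq_true_eq]

theorem eq' : S_Eq := by
  intro lam K x
  refine ⟨∫ ω in (0:ℝ)..1, (cnt (Vn lam ω) K x : ℝ), fun ω => ?_⟩
  exact (avg_SS (ud_phase alpha_irr ω) (cnt_mem lam K x)).2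

end Pool.Agent.Q266.FD
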