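import Pool.Agent.Q266.FD.Stm

/-!
Project FD: monotonicity from the measure theoretic core.
-/

set_option autoImplicit false

open MeasureTheory Filter Topology Set
open scoped ENNReal NNReal

namespace Pool.Agent.Q266.FD

open Pool.Agent.W745.Fib Pool.Agent.Y662.FIB
open Pool.Agent.W811.Dos (upDim)

lemma tendsto_fib3 : Tendsto (fun m => Nat.fib (m + 3)) atTop atTop := by
  refine tendsto_atTop_mono (fun n => ?_) tendsto_id
  rcases Nat.lt_or_ge n 2 with h | h
  · interval_cases n <;> decide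
  · have h1 : n + 3 ≤ Nat.fib (n + 3) := Nat.le_fib_self (by omega)
    have : n ≤ n + 3 := by omega
    exact this.trans h1

theorem mn (hC : S_Co) (hZ : S_Zb) (hE : S_Ae) (hA : S_At) : S_Mn := by
  intro a b ha hab μ ν C hμ hν hNμ hNν
  have hb : 0 < b := lt_of_lt_of_le ha hab
  have hbands : ∀ m : ℕ, ∃ u v : Fin (Nat.fib (m + 3)) → ℝ → ℝ, (∀ j, Ends (m + 3) (u j) (v j)) ∧
      (∀ l : ℝ, 0 < l → ∀ i j, i < j → v i l < u j l) ∧
      ∀ l : ℝ, 0 < l → {E : ℝ | |tr l (m + 3) E| ≤ 1} = ⋃ j, Icc (u j l) (v j l) :=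
    fun m => bands (by omega)
  choose u v h1 h2 h3 using hbands
  refine hC μ ν (C + 1) (fun m => Nat.fib (m + 3)) (fun m i => u m i a) (fun m i => v m i a)
    (fun m i => u m i b) (fun m i => v m i b) ?_
  have hcount : ∀ (l : ℝ), 0 < l → ∀ (ρ : Measure ℝ), Near l ρ C → ∀ m i x, u m i l ≤ x →
      x ≤ v m i l → |(ρ (Iic x)).toReal * (Nat.fib (m + 3) : ℕ) - ((i : ℕ) : ℝ)| ≤ C + 1 := by
    intro l hl ρ hN m i x hx1 hx2
    have e1 := hZ (m + 3) (by omega) (u m) (v m) (h1 m) (h2 m) (h3 m) l hl i x hx1 hx2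
    have e2 := abs_le.1 (hN (m + 3) (by omega) x)
    have e3 : ((i : ℕ) : ℝ) ≤ zc l (m + 3) x := by exact_mod_cast e1.1
    have e4 : (zc l (m + 3) x : ℝ) ≤ (i : ℕ) + 1 := by exact_mod_cast e1.2
    rw [abs_le]
    constructor <;> linarith [e2.1, e2.2]
  refine ⟨hμ, hν, hA a ha μ C hμ hNμ, hA b hb ν C hν hNν, fun m => Nat.fib_pos.2 (by omega),
    by decide, fun m => Nat.fib_mono (by omega), fun m => ?_, tendsto_fib3, ?_, ?_, ?_, ?_, ?_, ?_⟩
  · have e1 : Nat.fib (m + 1 + 3) = Nat.fib (m + 2) + Nat.fib (m + 3) := by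
      rw [show m + 1 + 3 = (m + 2) + 2 by ring, Nat.fib_add_two]
    have e2 : Nat.fib (m + 2) ≤ Nat.fib (m + 3) := Nat.fib_mono (by omega)
    change Nat.fib (m + 1 + 3) ≤ 2 * Nat.fib (m + 3)
    omega
  · intro m i
    exact ((h1 m i).lt a ha).le
  · intro m i
    exact ((h1 m i).lt b hb).le
  · intro m i
    rcases hab.eq_or_lt with h0 | hlt
    · change v m i b - u m i b ≤ v m i a - u m i a
      rw [h0]
    · exact (shrink (by omega) (h1 m i) ha hb hlt).le
  · intro m i x hx1 hx2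
    exact hcount a ha μ hNμ m i x hx1 hx2
  · intro m i x hx1 hx2
    exact hcount b hb ν hNν m i x hx1 hx2
  · intro m
    filter_upwards [hE b hb ν C hν hNν (m + 3) (by omega)] with x hx
    rcases hx with hx | hx
    · left
      have : x ∈ {E : ℝ | |tr b (m + 3) E| ≤ 1} := hx
      rw [h3 m b hb] at this
      exact mem_iUnion.1 this
    · right
      have : x ∈ {E : ℝ | |tr b (m + 1 + 3) E| ≤ 1} := hx
      rw [h3 (m + 1) b hb] at this
      exact mem_iUnion.1 this

end Pool.Agent.Q266.FD
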