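import Pool.Agent.Q266.FD.On

/-!
Project FD: all intervals of a disjoint family.
-/

set_option autoImplicit false

open MeasureTheory Filter Topology Set
open scoped ENNReal NNReal

namespace Pool.Agent.Q266.FD

lemma sum_biUnion_le' {ι κ : Type*} [DecidableEq κ] (s : Finset ι) (t : ι → Finset κ) (g : κ → ℝ)
    (hg : ∀ i ∈ s, ∀ k ∈ t i, 0 ≤ g k) : ∑ k ∈ s.biUnion t, g k ≤ ∑ i ∈ s, ∑ k ∈ t i, g k := by
  classical
  induction s using Finset.induction_on with
  | empty => simp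
  | insert a s ha ih =>
    rw [Finset.biUnion_insert, Finset.sum_insert ha]
    have h1 := Finset.sum_union_inter (s₁ := t a) (s₂ := s.biUnion t) (f := g)
    have h2 : 0 ≤ ∑ k ∈ t a ∩ s.biUnion t, g k :=
      Finset.sum_nonneg (fun k hk => hg a (Finset.mem_insert_self _ _) k (Finset.mem_inter.1 hk).1)
    have h3 := ih (fun i hi k hk => hg i (Finset.mem_insert_of_mem hi) k hk)
    linarith

theorem st (hO : S_On) (hQ : S_Qt) : S_St := by
  classical
  intro C
  obtain ⟨A, hA0, hO⟩ := hO C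
  refine ⟨2 * A, by positivity, ?_⟩
  intro μ ν f u v u' v' hF s hs K hK G hG hdis
  have := hF.pμ
  have := hF.pν
  have hK0 : 0 < K := by linarith
  have hex : ∀ I : ℝ × ℝ, ∃ F : Finset (ℝ × ℝ), I.1 < I.2 → (∀ J ∈ F, J.1 ≤ J.2) ∧
      ∑ J ∈ F, (J.2 - J.1) ^ s ≤ A * K * (I.2 - I.1) ^ s ∧
      ∀ᵐ x ∂ν, (μ (Iic I.1)).toReal + A / K * (μ (Ioo I.1 I.2)).toReal < (ν (Iic x)).toReal →
        (ν (Iic x)).toReal < (μ (Iic I.2)).toReal - A / K * (μ (Ioo I.1 I.2)).toReal →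
        x ∈ ⋃ J ∈ F, Icc J.1 J.2 := by
    intro I
    by_cases h : I.1 < I.2
    · obtain ⟨F, h1, h2, h3⟩ := hO μ ν f u v u' v' hF s hs K hK I.1 I.2 h
      exact ⟨F, fun _ => ⟨h1, h2, h3⟩⟩
    · exact ⟨∅, fun h' => absurd h' h⟩
  choose T hT using hex
  set p : ℝ × ℝ → ℝ := fun I => (μ (Ioo I.1 I.2)).toReal with hp
  set Q : ℝ × ℝ → Set ℝ := fun I => {x | (μ (Iic I.1)).toReal + A / K * p I < (ν (Iic x)).toReal ∧
    (ν (Iic x)).toReal < (μ (Iic I.2)).toReal - A / K * p I} with hQd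
  have hmono : Monotone (fun x => (ν (Iic x)).toReal) := fun x y h => mono_cdf ν h
  have hQm : ∀ I, MeasurableSet (Q I) := fun I =>
    (measurableSet_lt measurable_const hmono.measurable).inter
      (measurableSet_lt hmono.measurable measurable_const)
  have hp0 : ∀ I, 0 ≤ p I := fun I => ENNReal.toReal_nonneg
  have hAK : 0 ≤ A / K := by positivity
  -- masses of the sets `Q I`
  have hQν : ∀ I ∈ G, p I - 2 * (A / K) * p I ≤ (ν (Q I)).toReal := by
    intro I hI
    have e := ioo_cdf μ hF.aμ (hG I hI)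
    have h1 : 0 ≤ (μ (Iic I.1)).toReal + A / K * p I :=
      add_nonneg ENNReal.toReal_nonneg (mul_nonneg hAK (hp0 I))
    have h2 : (μ (Iic I.2)).toReal - A / K * p I ≤ 1 := by
      have h3 := ENNReal.toReal_mono ENNReal.one_ne_top (prob_le_one (μ := μ) (s := Iic I.2))
      rw [ENNReal.toReal_one] at h3
      have := mul_nonneg hAK (hp0 I)
      linarith
    rcases le_or_gt ((μ (Iic I.1)).toReal + A / K * p I) ((μ (Iic I.2)).toReal - A / K * p I)
      with h | h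
    · rw [hQ ν hF.pν hF.aν _ _ h1 h h2]
      change p I - _ ≤ _
      have e' : p I = (μ (Iic I.2)).toReal - (μ (Iic I.1)).toReal := e
      linarith
    · have e' : p I = (μ (Iic I.2)).toReal - (μ (Iic I.1)).toReal := e
      have : (0 : ℝ) ≤ (ν (Q I)).toReal := ENNReal.toReal_nonneg
      linarith
  have hdisj : (G : Set (ℝ × ℝ)).PairwiseDisjoint Q := by
    intro I hI J hJ hne
    rw [Function.onFun, Set.disjoint_left]
    intro x hx hy
    rcases hdis I hI J hJ hne with h | h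
    · have h1 := mono_cdf μ h
      have h2 := mul_nonneg hAK (hp0 I)
      have h3 := mul_nonneg hAK (hp0 J)
      linarith [hx.2, hy.1]
    · have h1 := mono_cdf μ h
      have h2 := mul_nonneg hAK (hp0 I)
      have h3 := mul_nonneg hAK (hp0 J)
      linarith [hx.1, hy.2]
  have hdisj2 : (G : Set (ℝ × ℝ)).PairwiseDisjoint (fun I => Ioo I.1 I.2) := by
    intro I hI J hJ hne
    rw [Function.onFun, Set.disjoint_left]
    intro x hx hy
    rcases hdis I hI J hJ hne with h | h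
    · linarith [hx.2, hy.1]
    · linarith [hx.1, hy.2]
  have hμG : (μ (⋃ I ∈ G, Ioo I.1 I.2)).toReal = ∑ I ∈ G, p I :=
    measureReal_biUnion_finset hdisj2 (fun I _ => measurableSet_Ioo)
  have hνG : (ν (⋃ I ∈ G, Q I)).toReal = ∑ I ∈ G, (ν (Q I)).toReal :=
    measureReal_biUnion_finset hdisj (fun I _ => hQm I)
  have hμ1 : ∑ I ∈ G, p I ≤ 1 := by
    rw [← hμG]
    have h3 := ENNReal.toReal_mono ENNReal.one_ne_top
      (prob_le_one (μ := μ) (s := ⋃ I ∈ G, Ioo I.1 I.2))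
    rwa [ENNReal.toReal_one] at h3
  refine ⟨G.biUnion T, ?_, ?_, ?_⟩
  · intro I hI
    rw [Finset.mem_biUnion] at hI
    obtain ⟨J, hJ, hI⟩ := hI
    exact (hT J (hG J hJ)).1 I hI
  · refine (sum_biUnion_le' G T _ ?_).trans ?_
    · intro J hJ I hI
      exact Real.rpow_nonneg (by linarith [(hT J (hG J hJ)).1 I hI]) _
    · rw [Finset.mul_sum]
      refine Finset.sum_le_sum (fun I hI => ((hT I (hG I hI)).2.1).trans ?_)
      have h1 : 0 ≤ (I.2 - I.1) ^ s := Real.rpow_nonneg (by linarith [hG I hI]) _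
      have h2 : 0 ≤ A * K := by positivity
      nlinarith
  · have h1 : ν (⋃ I ∈ G, Q I) ≤ ν (⋃ I ∈ G.biUnion T, Icc I.1 I.2) := by
      refine measure_mono_ae ?_
      have h2 : ∀ᵐ x ∂ν, ∀ I ∈ G, x ∈ Q I → x ∈ ⋃ J ∈ T I, Icc J.1 J.2 := by
        refine (ae_ball_iff (Finset.countable_toSet G)).2 ?_
        intro I hI
        filter_upwards [(hT I (hG I hI)).2.2] with x hx hq
        exact hx hq.1 hq.2
      filter_upwards [h2] with x hx hm
      have hm' : x ∈ ⋃ I ∈ G, Q I := hm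
      rw [mem_iUnion₂] at hm'
      obtain ⟨I, hI, hxI⟩ := hm'
      have := hx I hI hxI
      rw [mem_iUnion₂] at this
      obtain ⟨J, hJ, hxJ⟩ := this
      exact mem_iUnion₂.2 ⟨J, Finset.mem_biUnion.2 ⟨I, hI, hJ⟩, hxJ⟩
    have h2 := ENNReal.toReal_mono (measure_ne_top _ _) h1
    rw [hνG] at h2
    have h3 : ∑ I ∈ G, (p I - 2 * (A / K) * p I) ≤ ∑ I ∈ G, (ν (Q I)).toReal :=
      Finset.sum_le_sum hQν
    have h4 : ∑ I ∈ G, (p I - 2 * (A / K) * p I) = (∑ I ∈ G, p I) - 2 * (A / K) * ∑ I ∈ G, p I := by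
      rw [Finset.sum_sub_distrib, Finset.mul_sum]
    have h5 : 2 * (A / K) * ∑ I ∈ G, p I ≤ 2 * (A / K) * 1 :=
      mul_le_mul_of_nonneg_left hμ1 (by positivity)
    have h6 : 2 * A / K = 2 * (A / K) := by ring
    rw [hμG, h6]
    linarith

end Pool.Agent.Q266.FD
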