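import Pool.Agent.Q266.FD.Stm

/-!
Project FD: the dimension from covers.
-/

set_option autoImplicit false

open MeasureTheory Filter Topology Set
open scoped ENNReal NNReal

namespace Pool.Agent.Q266.FD

open Pool.Agent.W811.Dos (upDim)

theorem u2 : S_U2 := by
  classical
  intro μ hμ s hs h
  have e : ENNReal.ofReal s = ((Real.toNNReal s : ℝ≥0) : ℝ≥0∞) := rfl
  rw [e]
  refine (Pool.Agent.W382.Dos.Ud.ud μ hμ (Real.toNNReal s)).2 ?_
  intro s' hs' ε hε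
  rw [Real.coe_toNNReal _ hs.le] at hs'
  have hs'0 : (0 : ℝ) < s' := hs.trans hs'
  have hεR : (0 : ℝ) < ε := by exact_mod_cast hε
  set δ : ℝ := min ((ε : ℝ) / 4) (1 / 2) with hδ
  have hδ0 : 0 < δ := lt_min (by positivity) (by norm_num)
  have hδ1 : δ ≤ (ε : ℝ) / 4 := min_le_left _ _
  have hδ2 : δ ≤ 1 / 2 := min_le_right _ _
  obtain ⟨F, f1, f2, f3⟩ := h δ hδ0
  set η : ℝ := δ / (F.card + 1) with hη
  have hc : (0 : ℝ) < F.card + 1 := by positivity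
  have hη0 : 0 < η := by positivity
  have hterm : ∀ I ∈ F, (I.2 - I.1) ^ (s' : ℝ) ≤ (I.2 - I.1) ^ s := by
    intro I hI
    have h0 : 0 ≤ I.2 - I.1 := by linarith [f1 I hI]
    rcases h0.eq_or_lt with h1 | h1
    · rw [← h1, Real.zero_rpow hs'0.ne', Real.zero_rpow hs.ne']
    · refine Real.rpow_le_rpow_of_exponent_ge h1 ?_ hs'.le
      by_contra hcon
      push Not at hcon
      have h2 : 1 < (I.2 - I.1) ^ s := Real.one_lt_rpow hcon hs
      have h3 : (I.2 - I.1) ^ s ≤ ∑ I ∈ F, (I.2 - I.1) ^ s :=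
        Finset.single_le_sum (f := fun I : ℝ × ℝ => (I.2 - I.1) ^ s)
          (fun J hJ => Real.rpow_nonneg (by linarith [f1 J hJ]) _) hI
      linarith
  have hex : ∀ I : ℝ × ℝ, ∃ J : ℚ × ℚ, I.1 ≤ I.2 → J.1 < J.2 ∧
      Icc I.1 I.2 ⊆ Ioo (J.1 : ℝ) (J.2 : ℝ) ∧
      ((J.2 - J.1 : ℚ) : ℝ) ^ (s' : ℝ) < (I.2 - I.1) ^ (s' : ℝ) + η := by
    intro I
    by_cases hI : I.1 ≤ I.2
    · obtain ⟨J, j1, j2, j3⟩ := Pool.Agent.W382.Dos.Ud.rat_int ((I.1 + I.2) / 2)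
        ((I.2 - I.1) / 2) s' η (by linarith) hs'0 hη0
      refine ⟨J, fun _ => ⟨j1, ?_, ?_⟩⟩
      · refine Subset.trans (Icc_subset_Icc ?_ ?_) j2 <;> linarith
      · have e1 : 2 * ((I.2 - I.1) / 2) = I.2 - I.1 := by ring
        rwa [e1] at j3
    · exact ⟨(0, 0), fun h' => absurd h' hI⟩
  choose T hT using hex
  refine ⟨F.image T, ?_, ?_, ?_⟩
  · intro J hJ
    rw [Finset.mem_image] at hJ
    obtain ⟨I, hI, rfl⟩ := hJ
    exact (hT I (f1 I hI)).1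
  · have h1 : ∑ J ∈ F.image T, ((J.2 - J.1 : ℚ) : ℝ) ^ (s' : ℝ) ≤
        ∑ I ∈ F, (((T I).2 - (T I).1 : ℚ) : ℝ) ^ (s' : ℝ) := by
      refine Finset.sum_image_le_of_nonneg
        (f := fun J : ℚ × ℚ => ((J.2 - J.1 : ℚ) : ℝ) ^ (s' : ℝ)) ?_
      intro J hJ
      rw [Finset.mem_image] at hJ
      obtain ⟨I, hI, rfl⟩ := hJ
      refine Real.rpow_nonneg ?_ _
      exact_mod_cast (sub_pos.2 (hT I (f1 I hI)).1).le
    have h2 : ∑ I ∈ F, (((T I).2 - (T I).1 : ℚ) : ℝ) ^ (s' : ℝ) ≤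
        ∑ I ∈ F, ((I.2 - I.1) ^ s + η) :=
      Finset.sum_le_sum (fun I hI => ((hT I (f1 I hI)).2.2.le).trans
        (by linarith [hterm I hI]))
    rw [Finset.sum_add_distrib, Finset.sum_const, nsmul_eq_mul] at h2
    have h3 : (F.card : ℝ) * η ≤ δ := by
      rw [hη, mul_div_assoc', div_le_iff₀ hc]
      nlinarith
    linarith
  · have h1 : μ (⋃ I ∈ F, Icc I.1 I.2) ≤ μ (⋃ J ∈ F.image T, Ioo (J.1 : ℝ) (J.2 : ℝ)) := by
      refine measure_mono ?_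
      intro x hx
      rw [mem_iUnion₂] at hx ⊢
      obtain ⟨I, hI, hx⟩ := hx
      exact ⟨T I, Finset.mem_image_of_mem T hI, (hT I (f1 I hI)).2.1 hx⟩
    refine lt_of_lt_of_le ?_ h1
    have h2 : ENNReal.ofReal (1 - δ) ≤ μ (⋃ I ∈ F, Icc I.1 I.2) := by
      have := ENNReal.ofReal_le_ofReal f3
      rwa [ENNReal.ofReal_toReal (measure_ne_top _ _)] at this
    refine lt_of_lt_of_le ?_ h2
    exact (ENNReal.ofReal_lt_ofReal_iff (by linarith)).2 (by linarith)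

end Pool.Agent.Q266.FD
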