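import Pool.Agent.Q266.FD.Stm

/-!
Project FD: the potential for the phase zero repeats itself, and its discriminants.
-/

set_option autoImplicit false

open MeasureTheory Filter Topology Set
open scoped ENNReal NNReal

namespace Pool.Agent.Q266.FD

open Pool.Agent.W745.Fib Pool.Agent.W811.Stu Pool.Agent.W965.Stu Pool.Agent.H695R3.ST

lemma alpha_sq : alpha * alpha + alpha = 1 := by
  have h : Real.sqrt 5 ^ 2 = 5 := Real.sq_sqrt (by norm_num)
  unfold alpha
  nlinarith

lemma alpha_pos : 0 < alpha := by
  have h : (1 : ℝ) < Real.sqrt 5 := by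
    rw [Real.lt_sqrt (by norm_num)]
    norm_num
  unfold alpha
  linarith

lemma alpha_lt : alpha < 1 := by
  have h := alpha_sq
  have h2 := alpha_pos
  nlinarith

lemma alpha_irr : Irrational alpha := by
  have h5 : Irrational (Real.sqrt 5) := by
    have := Nat.Prime.irrational_sqrt (show Nat.Prime 5 by norm_num)
    exact_mod_cast this
  have h1 : Irrational (Real.sqrt 5 - (1 : ℤ)) := h5.sub_intCast 1
  have h2 := h1.div_natCast (show (2 : ℕ) ≠ 0 by norm_num)
  unfold alpha
  exact_mod_cast h2

lemma alpha_inv : alpha⁻¹ = 1 + alpha := by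
  have h := alpha_sq
  have h2 := alpha_pos
  refine inv_eq_of_mul_eq_one_right ?_
  linarith

lemma gauss_alpha : gauss alpha = alpha := by
  unfold gauss
  rw [alpha_inv, add_comm, Int.fract_add_one, Int.fract_eq_self]
  exact ⟨alpha_pos.le, alpha_lt⟩

lemma gauss_iter (k : ℕ) : gauss^[k] alpha = alpha := Function.iterate_fixed gauss_alpha k

lemma dig_alpha : dig alpha = one := by
  funext k
  unfold dig
  rw [gauss_iter, alpha_inv]
  change _ = 1
  rw [Nat.floor_eq_iff (by linarith [alpha_pos])]
  constructor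
  · push_cast
    linarith [alpha_pos]
  · push_cast
    linarith [alpha_lt]

lemma QQ_one (m : ℕ) : QQ one m = Nat.fib m := by
  have h : QQ one m = Nat.fib m ∧ QQ one (m + 1) = Nat.fib (m + 1) := by
    induction m with
    | zero => exact ⟨rfl, rfl⟩
    | succ m ih =>
      refine ⟨ih.2, ?_⟩
      rw [show m + 1 + 1 = m + 2 from rfl, QQ_succ, ih.1, ih.2, Nat.fib_add_two]
      change 1 * _ + _ = _
      ring
  exact h.1

lemma V_eq_pot (lam ω : ℝ) : V lam ω = pot lam alpha ω := by
  funext n
  unfold V pot
  rw [add_comm]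

theorem wd : S_Wd := by
  intro lam
  constructor
  · intro k hk n hn
    unfold Vn
    rw [V_eq_pot]
    have h := pot_shift (lam := lam) alpha_irr alpha_pos alpha_lt k (n := (n : ℤ) + 1) (by omega)
      (by
        rw [dig_alpha, QQ_one, Nat.fib_add_two]
        have h2 : 2 ≤ Nat.fib (k + 1) := by
          have := Nat.fib_mono (show 3 ≤ k + 1 by omega)
          exact this
        push_cast
        omega)
    rw [dig_alpha, QQ_one] at h
    rw [← h]
    congr 1
    push_cast
    ring
  · intro k hk E
    obtain ⟨m, rfl⟩ : ∃ m, k = m + 2 := ⟨k - 2, by omega⟩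
    have h := orb_y_D (lam := lam) (E := E) alpha_irr alpha_pos alpha_lt m
    rw [dig_alpha, QQ_one, Pool.Agent.W745.Fib.orb_y] at h
    rw [V_eq_pot, ← h]

end Pool.Agent.Q266.FD
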