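import Pool.Agent.Q266.FD.Stm

/-!
Project FD: there is one zero in each band; almost every energy is in one of two consecutive
approximants; no atoms.
-/

set_option autoImplicit false

open MeasureTheory Filter Topology Set
open scoped ENNReal NNReal

namespace Pool.Agent.Q266.FD

open Pool.Agent.W745.Fib Pool.Agent.Y662.FIB

lemma zeros {l : ℝ} (hl : 0 < l) {n : ℕ} (hn : 1 ≤ n) : {E : ℝ | tr l n E = 0}.Finite ∧
    {E : ℝ | tr l n E = 0}.ncard = Nat.fib n :=
  (hZ l hl.ne' n hn).2.1 0 (by rw [abs_zero]; exact lt_trans one_pos (one_lt hl))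

theorem zb : S_Zb := by
  classical
  intro n hn u v hE hord huni l hl i x hx1 hx2
  obtain ⟨hfin, hcard⟩ := zeros hl hn
  -- the band of a zero
  have hband : ∀ z : {E : ℝ | tr l n E = 0}, ∃ j, (z : ℝ) ∈ Icc (u j l) (v j l) := by
    intro z
    have h1 : (z : ℝ) ∈ {E : ℝ | |tr l n E| ≤ 1} := by
      have h2 : tr l n z = 0 := z.2
      rw [mem_ofPred_eq, h2, abs_zero]
      exact zero_le_one
    rw [huni l hl] at h1
    exact mem_iUnion.1 h1
  choose f hf using hband
  have hinj : Function.Injective f := by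
    intro z w h
    have h1 := hf z
    have h2 := hf w
    rw [← h] at h2
    have h3 := inj_seg hl hn ((hE (f z)).le l hl)
    have hz : tr l n z = 0 := z.2
    have hw : tr l n w = 0 := w.2
    exact Subtype.ext (h3 h1 h2 (hz.trans hw.symm))
  have := hfin.fintype
  have hcard' : Fintype.card {E : ℝ | tr l n E = 0} = Fintype.card (Fin (Nat.fib n)) := by
    rw [Fintype.card_fin, ← hcard, ← Nat.card_eq_fintype_card, Set.ncard_eq_toFinset_card',
      Set.toFinset_card, Nat.card_eq_fintype_card]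
  have hbij : Function.Bijective f := (Fintype.bijective_iff_injective_and_card f).2 ⟨hinj, hcard'⟩
  -- the zeros numbered by the bands
  obtain ⟨g, hg1, hg2⟩ := Function.bijective_iff_has_inverse.1 hbij
  have hgz : ∀ j, tr l n (g j) = 0 := fun j => (g j).2
  have hgb : ∀ j, (g j : ℝ) ∈ Icc (u j l) (v j l) := by
    intro j
    have := hf (g j)
    rwa [hg2 j] at this
  have hginj : Function.Injective (fun j => (g j : ℝ)) :=
    Subtype.val_injective.comp (Function.LeftInverse.injective hg2)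
  have hset : {E : ℝ | tr l n E = 0 ∧ E ≤ x} =
      ((Finset.univ.filter (fun j => (g j : ℝ) ≤ x)).image (fun j => (g j : ℝ)) : Finset ℝ) := by
    ext E
    simp only [mem_ofPred_eq, Finset.coe_image, Finset.coe_filter, Finset.mem_univ, true_and,
      mem_image]
    constructor
    · rintro ⟨h1, h2⟩
      refine ⟨f ⟨E, h1⟩, ?_, ?_⟩
      · rw [hg1]; exact h2
      · rw [hg1]
    · rintro ⟨j, h1, rfl⟩
      exact ⟨hgz j, h1⟩
  have hzc : zc l n x = (Finset.univ.filter (fun j => (g j : ℝ) ≤ x)).card := by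
    unfold zc
    rw [hset, Set.ncard_coe_finset, Finset.card_image_of_injective _ hginj]
  rw [hzc]
  constructor
  · have h1 : (Finset.Iio i) ⊆ Finset.univ.filter (fun j => (g j : ℝ) ≤ x) := by
      intro j hj
      rw [Finset.mem_Iio] at hj
      rw [Finset.mem_filter]
      refine ⟨Finset.mem_univ _, ?_⟩
      have := hord l hl j i hj
      linarith [(hgb j).2]
    have h2 := Finset.card_le_card h1
    rwa [Fin.card_Iio] at h2
  · have h1 : Finset.univ.filter (fun j => (g j : ℝ) ≤ x) ⊆ Finset.Iic i := by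
      intro j hj
      rw [Finset.mem_filter] at hj
      rw [Finset.mem_Iic]
      by_contra hc
      push Not at hc
      have := hord l hl i j hc
      linarith [(hgb j).1, hj.2]
    have h2 := Finset.card_le_card h1
    rwa [Fin.card_Iic] at h2

lemma ioc_cdf' (ν : Measure ℝ) [IsProbabilityMeasure ν] {c d : ℝ}
    (h : c ≤ d) : (ν (Ioc c d)).toReal = (ν (Iic d)).toReal - (ν (Iic c)).toReal := by
  have h2 : ν (Iic d) = ν (Iic c) + ν (Ioc c d) := by
    rw [← measure_union _ measurableSet_Ioc, Iic_union_Ioc_eq_Iic h]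
    rw [Set.disjoint_left]
    intro x hx hx'
    exact absurd hx (not_le.2 hx'.1)
  rw [h2, ENNReal.toReal_add (measure_ne_top _ _) (measure_ne_top _ _)]
  ring

/-- a number which is at most `B / fib k` for all large `k` vanishes -/
lemma le_zero_of_fib {r B : ℝ} (k0 : ℕ) (h : ∀ k, k0 ≤ k → r * Nat.fib k ≤ B) : r ≤ 0 := by
  by_contra hc
  push Not at hc
  have h1 : Tendsto (fun k : ℕ => (Nat.fib k : ℝ)) atTop atTop := by
    refine tendsto_natCast_atTop_atTop.comp ?_
    refine tendsto_atTop_mono (fun n => ?_) (tendsto_sub_atTop_nat 1)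
    rcases Nat.lt_or_ge n 5 with h | h
    · interval_cases n <;> decide
    · exact (Nat.sub_le n 1).trans (Nat.le_fib_self h)
  obtain ⟨k, hk1, hk2⟩ := ((h1.eventually_gt_atTop (B / r)).and (eventually_ge_atTop k0)).exists
  have h2 := h k hk2
  rw [div_lt_iff₀ hc] at hk1
  linarith

lemma zc_mono {l : ℝ} (hl : 0 < l) {n : ℕ} (hn : 1 ≤ n) {p q : ℝ} (hpq : p ≤ q) :
    zc l n q = zc l n p + {E : ℝ | tr l n E = 0 ∧ p < E ∧ E ≤ q}.ncard := by
  unfold zc
  have hfin := (zeros hl hn).1
  rw [← Set.ncard_union_eq ?_ (hfin.subset (fun E h => h.1)) (hfin.subset (fun E h => h.1))]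
  · congr 1
    ext E
    simp only [mem_ofPred_eq, mem_union]
    constructor
    · rintro ⟨h1, h2⟩
      rcases le_or_gt E p with h | h
      · exact Or.inl ⟨h1, h⟩
      · exact Or.inr ⟨h1, h, h2⟩
    · rintro (⟨h1, h2⟩ | ⟨h1, h2, h3⟩)
      · exact ⟨h1, h2.trans hpq⟩
      · exact ⟨h1, h3⟩
  · rw [Set.disjoint_left]
    rintro E ⟨-, h⟩ ⟨-, h', -⟩
    exact absurd h (not_le.2 h')

theorem ae' : S_Ae := by
  intro lam hl ν C hν hN m hm
  obtain ⟨C0, hC0, hB⟩ := Pool.Agent.W753.FM.sbd lam hl.ne'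
  set U : Set ℝ := {x | ¬ (|tr lam m x| ≤ 1 ∨ |tr lam (m + 1) x| ≤ 1)} with hU
  have hUo : IsOpen U := by
    have e : U = {x | 1 < |tr lam m x|} ∩ {x | 1 < |tr lam (m + 1) x|} := by
      ext x
      simp only [hU, mem_ofPred_eq, not_or, not_le, mem_inter_iff]
    rw [e]
    exact (isOpen_lt continuous_const (cont_tr lam m).abs).inter
      (isOpen_lt continuous_const (cont_tr lam (m + 1)).abs)
  have hnull : ∀ p q : ℝ, p ≤ q → Icc p q ⊆ U → ν (Ioc p q) = 0 := by
    intro p q hpq hsub
    have h1 : (ν (Ioc p q)).toReal ≤ 0 := by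
      refine le_zero_of_fib (B := 2 * C) (m + 1) (fun k hk => ?_)
      have e0 : {E : ℝ | tr lam k E = 0 ∧ p < E ∧ E ≤ q} = ∅ := by
        ext E
        simp only [mem_ofPred_eq, mem_empty_iff_false, iff_false, not_and, not_le]
        intro h1 h2
        by_contra hc
        push Not at hc
        have h3 : E ∈ U := hsub ⟨h2.le, hc⟩
        have h4 := (hB k (by omega) E (by rw [h1, abs_zero]; exact zero_le_one)).2 m (by omega)
        exact h3 h4
      have e1 := zc_mono hl (show 1 ≤ k by omega) hpq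
      rw [e0, Set.ncard_empty, add_zero] at e1
      have a1 := abs_le.1 (hN k (by omega) q)
      have a2 := abs_le.1 (hN k (by omega) p)
      rw [e1] at a1
      rw [ioc_cdf' ν hpq]
      linarith [a1.1, a1.2, a2.1, a2.2]
    have h2 : (ν (Ioc p q)).toReal = 0 := le_antisymm h1 ENNReal.toReal_nonneg
    rcases (ENNReal.toReal_eq_zero_iff _).1 h2 with h | h
    · exact h
    · exact absurd h (measure_ne_top _ _)
  rw [ae_iff]
  change ν U = 0
  have hcov : U ⊆ ⋃ (p : ℚ) (q : ℚ) (_ : (p : ℝ) ≤ q ∧ Icc (p : ℝ) q ⊆ U), Ioc (p : ℝ) q := by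
    intro x hx
    obtain ⟨ε, hε, hb⟩ := Metric.isOpen_iff.1 hUo x hx
    obtain ⟨p, hp1, hp2⟩ := exists_rat_btwn (show x - ε < x by linarith)
    obtain ⟨q, hq1, hq2⟩ := exists_rat_btwn (show x < x + ε by linarith)
    simp only [mem_iUnion]
    refine ⟨p, q, ⟨by linarith, ?_⟩, hp2, hq1.le⟩
    intro y hy
    apply hb
    rw [Metric.mem_ball, Real.dist_eq, abs_lt]
    constructor <;> linarith [hy.1, hy.2]
  refine measure_mono_null hcov ?_
  rw [measure_iUnion_null_iff]
  intro p
  rw [measure_iUnion_null_iff]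
  intro q
  rw [measure_iUnion_null_iff]
  rintro ⟨h1, h2⟩
  exact hnull p q h1 h2

theorem at' : S_At := by
  intro lam hl ν C hν hN x
  have h1 : (ν {x}).toReal ≤ 0 := by
    refine le_zero_of_fib (B := 2 * C + 1) 1 (fun k hk => ?_)
    have hfin := (zeros hl hk).1
    -- a point to the left of `x` without zeros in between
    obtain ⟨y, hy, hyx⟩ : ∃ y, y < x ∧ {E : ℝ | tr lam k E = 0 ∧ y < E ∧ E ≤ x} ⊆ {x} := by
      have hcl : IsClosed {E : ℝ | tr lam k E = 0 ∧ E < x} :=
        (hfin.subset (fun E h => h.1)).isClosed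
      have hx : x ∈ {E : ℝ | tr lam k E = 0 ∧ E < x}ᶜ := by
        simp
      obtain ⟨ε, hε, hb⟩ := Metric.isOpen_iff.1 hcl.isOpen_compl x hx
      refine ⟨x - ε / 2, by linarith, ?_⟩
      rintro E ⟨h1, h2, h3⟩
      rw [mem_singleton_iff]
      by_contra hne
      have h4 : E ∈ Metric.ball x ε := by
        rw [Metric.mem_ball, Real.dist_eq, abs_lt]
        constructor <;> linarith
      exact hb h4 ⟨h1, lt_of_le_of_ne h3 hne⟩
    have e1 := zc_mono hl hk hy.le
    have e2 : {E : ℝ | tr lam k E = 0 ∧ y < E ∧ E ≤ x}.ncard ≤ 1 := by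
      have := Set.ncard_le_ncard hyx (Set.finite_singleton x)
      rwa [Set.ncard_singleton] at this
    have e3 : (zc lam k x : ℝ) ≤ zc lam k y + 1 := by
      have : zc lam k x ≤ zc lam k y + 1 := by omega
      exact_mod_cast this
    have a1 := abs_le.1 (hN k hk x)
    have a2 := abs_le.1 (hN k hk y)
    have h5 : (ν {x}).toReal ≤ (ν (Ioc y x)).toReal :=
      ENNReal.toReal_mono (measure_ne_top _ _) (measure_mono (by
        intro z hz
        rw [mem_singleton_iff] at hz
        rw [hz]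
        exact ⟨hy, le_rfl⟩))
    rw [ioc_cdf' ν hy.le] at h5
    have h6 := mul_le_mul_of_nonneg_right h5 (Nat.cast_nonneg (α := ℝ) (Nat.fib k))
    linarith [a1.1, a1.2, a2.1, a2.2]
  have h2 : (ν {x}).toReal = 0 := le_antisymm h1 ENNReal.toReal_nonneg
  rcases (ENNReal.toReal_eq_zero_iff _).1 h2 with h | h
  · exact h
  · exact absurd h (measure_ne_top _ _)

end Pool.Agent.Q266.FD
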