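import Pool.Agent.Q266.FD.Asm
import Pool.Agent.Q266.FD.Mn
import Pool.Agent.Q266.FD.St
import Pool.Agent.Q266.FD.Co
import Pool.Agent.Q266.FD.Wd
import Pool.Agent.Q266.FD.Zb
import Pool.Agent.Q266.FD.U2
import Pool.Agent.Q266.FD.Eq

/-!
Project FD: what remains after the parts of helper266.
-/

set_option autoImplicit false

open MeasureTheory Filter Topology Set
open scoped ENNReal NNReal

namespace Pool.Agent.Q266.FD

open Pool.Agent.W811.Dos (upDim)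

theorem fin (hS : S_Sub) (hCx : S_Cx) (hBl : S_Sub → S_Cx → S_Blk) (hTw : S_Sub → S_Cx → S_Tw)
    (hSh : S_Sh) (hCn : S_Blk → S_Tw → S_Wd → S_Sh → S_Cn) (hDj : S_Dj) (hU1 : S_Dj → S_U1)
    (hQt : S_Qt) (hCv : S_Eq → S_Blk → S_Cv) (hEx : S_Cv → S_Tw → S_Wd → S_Ex) :
    (∀ lam : ℝ, 0 < lam → ∃ ν, IsDOS lam ν ∧ ∀ ν', IsDOS lam ν' → ν' = ν) ∧
    ∀ a b : ℝ, 0 < a → a ≤ b → ∀ μ ν : Measure ℝ, IsDOS a μ → IsDOS b ν → upDim ν ≤ upDim μ := by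
  have h1 := hBl hS hCx
  have h2 := hTw hS hCx
  have h3 := hCn h1 h2 wd hSh
  have h4 := co (st on hQt) (hU1 hDj) u2
  have h5 := mn h4 zb ae' at'
  have h6 := hEx (hCv eq' h1) h2 wd
  refine ⟨fun lam hl => ?_, main h3 h5⟩
  obtain ⟨ν, hν⟩ := h6 lam hl
  exact ⟨ν, hν, fun ν' h => uniq h hν⟩

end Pool.Agent.Q266.FD
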