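import Pool.Agent.Q266.FD.Stm

/-!
Project FD: one interval.
-/

set_option autoImplicit false

open MeasureTheory Filter Topology Set
open scoped ENNReal NNReal

namespace Pool.Agent.Q266.FD

lemma mono_cdf (μ : Measure ℝ) [IsProbabilityMeasure μ] {x y : ℝ} (h : x ≤ y) :
    (μ (Iic x)).toReal ≤ (μ (Iic y)).toReal :=
  ENNReal.toReal_mono (measure_ne_top _ _) (measure_mono (Iic_subset_Iic.2 h))

lemma ioo_cdf (μ : Measure ℝ) [IsProbabilityMeasure μ] (ha : ∀ x, μ {x} = 0) {c d : ℝ}
    (h : c < d) : (μ (Ioo c d)).toReal = (μ (Iic d)).toReal - (μ (Iic c)).toReal := by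
  have : NullSingletonClass μ := ⟨ha⟩
  have h1 : μ (Ioo c d) = μ (Ioc c d) := measure_congr Ioo_ae_eq_Ioc
  have h2 : μ (Iic d) = μ (Iic c) + μ (Ioc c d) := by
    rw [← measure_union _ measurableSet_Ioc, Iic_union_Ioc_eq_Iic h.le]
    rw [Set.disjoint_left]
    intro x hx hx'
    exact absurd hx (not_le.2 hx'.1)
  rw [h1, h2, ENNReal.toReal_add (measure_ne_top _ _) (measure_ne_top _ _)]
  ring

lemma card_fin_le {n : ℕ} (S : Finset (Fin n)) (a b : ℝ)
    (h : ∀ i ∈ S, a ≤ (i : ℕ) ∧ ((i : ℕ) : ℝ) ≤ b) (hab : a ≤ b) : (S.card : ℝ) ≤ b - a + 1 := by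
  rcases S.eq_empty_or_nonempty with h0 | ⟨j, hj⟩
  · rw [h0, Finset.card_empty, Nat.cast_zero]
    linarith
  · have hj' := h j hj
    have hb0 : 0 ≤ b := le_trans (Nat.cast_nonneg _) hj'.2
    have h1 : (S.image (fun i : Fin n => (i : ℕ))) ⊆ Finset.Icc ⌈a⌉₊ ⌊b⌋₊ := by
      intro k hk
      rw [Finset.mem_image] at hk
      obtain ⟨i, hi, rfl⟩ := hk
      rw [Finset.mem_Icc]
      exact ⟨Nat.ceil_le.2 (h i hi).1, Nat.le_floor (h i hi).2⟩
    have h2 := Finset.card_le_card h1
    rw [Finset.card_image_of_injective _ Fin.val_injective, Nat.card_Icc] at h2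
    have h3 : ⌈a⌉₊ ≤ ⌊b⌋₊ := (Nat.ceil_le.2 hj'.1).trans (Nat.le_floor hj'.2)
    have h4 : (S.card : ℝ) ≤ ((⌊b⌋₊ + 1 - ⌈a⌉₊ : ℕ) : ℝ) := by exact_mod_cast h2
    rw [Nat.cast_sub (by omega)] at h4
    push_cast at h4
    have h5 := Nat.floor_le hb0
    have h6 := Nat.le_ceil a
    linarith

theorem on : S_On := by
  classical
  intro C
  refine ⟨12 + 16 * |C|, by positivity, ?_⟩
  intro μ ν f u v u' v' hF s hs K hK c d hcd
  set A : ℝ := 12 + 16 * |C| with hA
  have := hF.pμ
  have := hF.pν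
  have hp := ioo_cdf μ hF.aμ hcd
  set p : ℝ := (μ (Ioo c d)).toReal with hpdef
  have hC0 : C ≤ |C| := le_abs_self C
  have hCn : 0 ≤ |C| := abs_nonneg C
  have hA0 : 0 < A := by positivity
  have hK0 : 0 < K := by linarith
  have hp0 : 0 ≤ p := ENNReal.toReal_nonneg
  have hp1 : p ≤ 1 := by
    have := ENNReal.toReal_mono ENNReal.one_ne_top (prob_le_one (μ := μ) (s := Ioo c d))
    rwa [ENNReal.toReal_one] at this
  rcases hp0.eq_or_lt with h0 | hpos
  · refine ⟨∅, by simp, ?_, ?_⟩
    · rw [Finset.sum_empty]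
      have : 0 ≤ (d - c) ^ s := Real.rpow_nonneg (by linarith) _
      positivity
    · refine Eventually.of_forall (fun x h1 h2 => ?_)
      rw [← h0] at h1 h2 hp
      exfalso
      simp only [mul_zero, add_zero, sub_zero] at h1 h2
      linarith
  -- the level
  have hex : ∃ m, K / p ≤ f m := by
    obtain ⟨m, hm⟩ := ((tendsto_natCast_atTop_atTop (R := ℝ)).comp hF.top).eventually_ge_atTop
      (K / p) |>.exists
    exact ⟨m, hm⟩
  set m := Nat.find hex with hmdef
  have hm : K / p ≤ f m := Nat.find_spec hex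
  have hm2 : (f m : ℝ) * p ≤ 2 * K := by
    rcases Nat.eq_zero_or_pos m with h | h
    · have h2 : (f 0 : ℝ) ≤ 2 := by exact_mod_cast hF.two0
      rw [h]
      nlinarith
    · have h2 : ¬ K / p ≤ f (m - 1) := Nat.find_min hex (by omega)
      have h3 : (f m : ℝ) ≤ 2 * f (m - 1) := by
        have := hF.two (m - 1)
        rw [Nat.sub_add_cancel h] at this
        exact_mod_cast this
      rw [not_le, lt_div_iff₀ hpos] at h2
      nlinarith
  have hm3 : (f (m + 1) : ℝ) * p ≤ 4 * K := by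
    have h3 : (f (m + 1) : ℝ) ≤ 2 * f m := by exact_mod_cast hF.two m
    nlinarith
  have hm' : K / p ≤ f (m + 1) := hm.trans (by exact_mod_cast hF.mono m)
  -- the indices
  set S : (r : ℕ) → Finset (Fin (f r)) := fun r =>
    Finset.univ.filter (fun i => c < u r i ∧ v r i < d) with hS
  have hcard : ∀ r, ((S r).card : ℝ) ≤ f r * p + 2 * |C| + 1 := by
    intro r
    have hf0 : (0 : ℝ) ≤ f r := Nat.cast_nonneg _
    have h1 := card_fin_le (S r) ((μ (Iic c)).toReal * f r - |C|) ((μ (Iic d)).toReal * f r + |C|)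
      (by
        intro i hi
        rw [hS, Finset.mem_filter] at hi
        have h2 := abs_le.1 (hF.cμ r i (u r i) le_rfl (hF.le r i))
        have h3 : (μ (Iic c)).toReal ≤ (μ (Iic (u r i))).toReal := mono_cdf μ hi.2.1.le
        have h4 : (μ (Iic (u r i))).toReal ≤ (μ (Iic d)).toReal :=
          mono_cdf μ ((hF.le r i).trans hi.2.2.le)
        have h5 := mul_le_mul_of_nonneg_right h3 hf0
        have h6 := mul_le_mul_of_nonneg_right h4 hf0
        constructor <;> linarith [h2.1, h2.2])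
      (by
        have := mul_le_mul_of_nonneg_right (mono_cdf μ hcd.le) hf0
        linarith)
    have e : f r * p = (μ (Iic d)).toReal * f r - (μ (Iic c)).toReal * f r := by
      rw [hp]; ring
    linarith
  set F : Finset (ℝ × ℝ) := (S m).image (fun i => (u' m i, v' m i)) ∪
    (S (m + 1)).image (fun i => (u' (m + 1) i, v' (m + 1) i)) with hFdef
  have hmem : ∀ I ∈ F, I.1 ≤ I.2 ∧ I.2 - I.1 ≤ d - c := by
    have key : ∀ r, ∀ i ∈ S r, u' r i ≤ v' r i ∧ v' r i - u' r i ≤ d - c := by
      intro r i hi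
      rw [hS, Finset.mem_filter] at hi
      refine ⟨hF.le' r i, ?_⟩
      have := hF.len r i
      linarith [hi.2.1, hi.2.2]
    intro I hI
    rw [hFdef, Finset.mem_union, Finset.mem_image, Finset.mem_image] at hI
    rcases hI with ⟨i, hi, rfl⟩ | ⟨i, hi, rfl⟩
    · exact key m i hi
    · exact key (m + 1) i hi
  refine ⟨F, fun I hI => (hmem I hI).1, ?_, ?_⟩
  · have hr0 : 0 ≤ (d - c) ^ s := Real.rpow_nonneg (by linarith) _
    have h1 : ∑ I ∈ F, (I.2 - I.1) ^ s ≤ F.card • (d - c) ^ s := by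
      refine Finset.sum_le_card_nsmul _ _ _ (fun I hI => ?_)
      exact Real.rpow_le_rpow (by linarith [(hmem I hI).1]) (hmem I hI).2 hs.le
    rw [nsmul_eq_mul] at h1
    refine h1.trans (mul_le_mul_of_nonneg_right ?_ hr0)
    have h2 : (F.card : ℝ) ≤ (S m).card + (S (m + 1)).card := by
      have : F.card ≤ (S m).card + (S (m + 1)).card :=
        (Finset.card_union_le _ _).trans (Nat.add_le_add Finset.card_image_le
          Finset.card_image_le)
      exact_mod_cast this
    have h3 := hcard m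
    have h4 := hcard (m + 1)
    rw [hA]
    nlinarith
  · have key : ∀ r, K / p ≤ f r → ∀ (i : Fin (f r)) (x : ℝ), x ∈ Icc (u' r i) (v' r i) →
        (μ (Iic c)).toReal + A / K * p < (ν (Iic x)).toReal →
        (ν (Iic x)).toReal < (μ (Iic d)).toReal - A / K * p → i ∈ S r := by
      intro r hr i x hx h1 h2
      have hf0 : (0 : ℝ) < f r := lt_of_lt_of_le (by positivity) hr
      have h3 := abs_le.1 (hF.cν r i x hx.1 hx.2)
      have h4 := abs_le.1 (hF.cμ r i (u r i) le_rfl (hF.le r i))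
      have h5 := abs_le.1 (hF.cμ r i (v r i) (hF.le r i) le_rfl)
      have h6 : A ≤ A / K * p * f r := by
        have : K ≤ f r * p := (div_le_iff₀ hpos).1 hr
        have h7 : A / K * p * f r = A * ((f r * p) / K) := by ring
        rw [h7]
        have h8 : 1 ≤ (f r * p) / K := (one_le_div hK0).2 this
        nlinarith
      have h7 := mul_lt_mul_of_pos_right h1 hf0
      have h8 := mul_lt_mul_of_pos_right h2 hf0
      rw [hS, Finset.mem_filter]
      refine ⟨Finset.mem_univ _, ?_, ?_⟩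
      · by_contra hc
        push Not at hc
        have h9 := mul_le_mul_of_nonneg_right (mono_cdf μ hc) hf0.le
        rw [hA] at h6 h7
        nlinarith
      · by_contra hc
        push Not at hc
        have h9 := mul_le_mul_of_nonneg_right (mono_cdf μ hc) hf0.le
        rw [hA] at h6 h8
        nlinarith
    filter_upwards [hF.sup m] with x hx h1 h2
    simp only [mem_iUnion, exists_prop]
    rcases hx with ⟨i, hi⟩ | ⟨i, hi⟩
    · exact ⟨(u' m i, v' m i), Finset.mem_union_left _
        (Finset.mem_image_of_mem _ (key m hm i x hi h1 h2)), hi⟩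
    · exact ⟨(u' (m + 1) i, v' (m + 1) i), Finset.mem_union_right _
        (Finset.mem_image_of_mem _ (key (m + 1) hm' i x hi h1 h2)), hi⟩

end Pool.Agent.Q266.FD
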