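import Pool.Agent.Q266.FD.Defs

/-!
Project FD (helper266): statements of the parts.
-/

set_option autoImplicit false

open MeasureTheory Filter Topology Set Matrix
open scoped ENNReal NNReal

namespace Pool.Agent.Q266.FD

open Pool.Agent.W745.Fib Pool.Agent.Y662.FIB
open Pool.Agent.H695R3.ST (D)
open Pool.Agent.W811.Dos (upDim)

/-! ### counting eigenvalues -/

/-- (SUB) subspaces on which the quadratic form is small or large -/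
def S_Sub : Prop := ∀ (n : ℕ) (A : Matrix (Fin n) (Fin n) ℂ), A.IsHermitian → ∀ x : ℝ,
  cntH A x ≤ n ∧
  (∃ W : Submodule ℂ (Fin n → ℂ), Module.finrank ℂ W = cntH A x ∧
    ∀ v ∈ W, (star v ⬝ᵥ (A *ᵥ v)).re ≤ x * (star v ⬝ᵥ v).re) ∧
  (∃ W : Submodule ℂ (Fin n → ℂ), Module.finrank ℂ W = n - cntH A x ∧
    ∀ v ∈ W, v ≠ 0 → x * (star v ⬝ᵥ v).re < (star v ⬝ᵥ (A *ᵥ v)).re) ∧
  (∀ W : Submodule ℂ (Fin n → ℂ),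
    (∀ v ∈ W, (star v ⬝ᵥ (A *ᵥ v)).re ≤ x * (star v ⬝ᵥ v).re) →
    Module.finrank ℂ W ≤ cntH A x) ∧
  (∀ W : Submodule ℂ (Fin n → ℂ),
    (∀ v ∈ W, v ≠ 0 → x * (star v ⬝ᵥ v).re < (star v ⬝ᵥ (A *ᵥ v)).re) →
    Module.finrank ℂ W + cntH A x ≤ n)

/-- (CX) the real symmetric tridiagonal matrix as a Hermitian matrix -/
def S_Cx : Prop := ∀ (V : ℕ → ℝ) (N : ℕ) (x : ℝ),
  ((J V N).map (fun y : ℝ => (y : ℂ))).IsHermitian ∧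
  cnt V N x = cntH ((J V N).map (fun y : ℝ => (y : ℂ))) x

/-- (BLK) the number of eigenvalues is additive up to one -/
def S_Blk : Prop := ∀ (V : ℕ → ℝ) (p q : ℕ) (x : ℝ),
  cnt V (p + q) x ≤ cnt V p x + cnt (fun n => V (n + p)) q x + 1 ∧
  cnt V p x + cnt (fun n => V (n + p)) q x ≤ cnt V (p + q) x + 1

/-- (TW) zeros of the discriminant and eigenvalues of the box -/
def S_Tw : Prop := ∀ (V : ℤ → ℝ) (q : ℕ), 3 ≤ q → ∀ Z : Finset ℝ, Z.card = q →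
  (∀ E ∈ Z, (D V 1 q).eval E = 0) → ∀ x : ℝ,
  (Z.filter (fun E => E ≤ x)).card ≤ cnt (fun n => V ((n : ℤ) + 1)) q x + 1 ∧
  cnt (fun n => V ((n : ℤ) + 1)) q x ≤ (Z.filter (fun E => E ≤ x)).card + 1

/-- (WD) the potential for the phase zero repeats itself, and its discriminants -/
def S_Wd : Prop := ∀ lam : ℝ,
  (∀ k : ℕ, 2 ≤ k → ∀ n : ℕ, n < Nat.fib k → Vn lam 0 (n + Nat.fib (k + 1)) = Vn lam 0 n) ∧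
  ∀ k : ℕ, 2 ≤ k → ∀ E : ℝ, (D (V lam 0) 1 (Nat.fib k)).eval E = 2 * tr lam k E

/-- (SH) almost Fibonacci sequences -/
def S_Sh : Prop := ∀ B : ℝ, ∃ C : ℝ, ∀ d : ℕ → ℝ, |d 0| ≤ B →
  (∀ k, |d (k + 2) - d (k + 1) - d k| ≤ B) →
  Tendsto (fun k => d k / (Nat.fib (k + 1) : ℝ)) atTop (𝓝 0) → ∀ k, |d k| ≤ C

/-- (CN) the number of the zeros up to bounded error -/
def S_Cn : Prop := ∀ lam : ℝ, 0 < lam → ∃ C : ℝ, ∀ x L : ℝ,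
  Tendsto (fun k => (cnt (Vn lam 0) (Nat.fib k) x : ℝ) / (Nat.fib k : ℝ)) atTop (𝓝 L) →
  ∀ k : ℕ, 1 ≤ k → |(zc lam k x : ℝ) - L * Nat.fib k| ≤ C

/-- (ZB) there is one zero in each band -/
def S_Zb : Prop := ∀ n : ℕ, 1 ≤ n → ∀ u v : Fin (Nat.fib n) → ℝ → ℝ,
  (∀ j, Ends n (u j) (v j)) → (∀ l : ℝ, 0 < l → ∀ i j, i < j → v i l < u j l) →
  (∀ l : ℝ, 0 < l → {E : ℝ | |tr l n E| ≤ 1} = ⋃ j, Icc (u j l) (v j l)) →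
  ∀ l : ℝ, 0 < l → ∀ i x, u i l ≤ x → x ≤ v i l → (i : ℕ) ≤ zc l n x ∧ zc l n x ≤ i + 1

/-! ### measure theory -/

/-- (DJ) a finite family of intervals can be replaced by a disjoint one -/
def S_Dj : Prop := ∀ s : ℝ, 0 < s → s ≤ 1 → ∀ F : Finset (ℝ × ℝ), (∀ I ∈ F, I.1 < I.2) →
  ∃ G : Finset (ℝ × ℝ), (∀ I ∈ G, I.1 < I.2) ∧
    (∀ I ∈ G, ∀ K ∈ G, I ≠ K → I.2 ≤ K.1 ∨ K.2 ≤ I.1) ∧
    (⋃ I ∈ F, Ioo I.1 I.2) ⊆ (⋃ I ∈ G, Ioo I.1 I.2) ∧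
    ∑ I ∈ G, (I.2 - I.1) ^ s ≤ ∑ I ∈ F, (I.2 - I.1) ^ s

/-- (U1) disjoint covers from the dimension -/
def S_U1 : Prop := ∀ μ : Measure ℝ, IsProbabilityMeasure μ → ∀ t s : ℝ, upDim μ ≤ ENNReal.ofReal t →
  0 ≤ t → t < s → s ≤ 1 → ∀ ε : ℝ, 0 < ε → ∃ G : Finset (ℝ × ℝ), (∀ I ∈ G, I.1 < I.2) ∧
    (∀ I ∈ G, ∀ K ∈ G, I ≠ K → I.2 ≤ K.1 ∨ K.2 ≤ I.1) ∧
    ∑ I ∈ G, (I.2 - I.1) ^ s ≤ ε ∧ 1 - ε ≤ (μ (⋃ I ∈ G, Ioo I.1 I.2)).toReal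

/-- (U2) the dimension from covers -/
def S_U2 : Prop := ∀ μ : Measure ℝ, IsProbabilityMeasure μ → ∀ s : ℝ, 0 < s →
  (∀ ε : ℝ, 0 < ε → ∃ F : Finset (ℝ × ℝ), (∀ I ∈ F, I.1 ≤ I.2) ∧
    ∑ I ∈ F, (I.2 - I.1) ^ s ≤ ε ∧ 1 - ε ≤ (μ (⋃ I ∈ F, Icc I.1 I.2)).toReal) →
  upDim μ ≤ ENNReal.ofReal s

/-- two families of bands with the same numbering -/
structure Fam (μ ν : Measure ℝ) (C : ℝ) (f : ℕ → ℕ) (u v u' v' : (m : ℕ) → Fin (f m) → ℝ) :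
    Prop where
  pμ : IsProbabilityMeasure μ
  pν : IsProbabilityMeasure ν
  aμ : ∀ x, μ {x} = 0
  aν : ∀ x, ν {x} = 0
  pos : ∀ m, 0 < f m
  two0 : f 0 ≤ 2
  mono : ∀ m, f m ≤ f (m + 1)
  two : ∀ m, f (m + 1) ≤ 2 * f m
  top : Tendsto f atTop atTop
  le : ∀ m i, u m i ≤ v m i
  le' : ∀ m i, u' m i ≤ v' m i
  len : ∀ m i, v' m i - u' m i ≤ v m i - u m i
  cμ : ∀ m i x, u m i ≤ x → x ≤ v m i → |(μ (Iic x)).toReal * f m - (i : ℕ)| ≤ C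
  cν : ∀ m i x, u' m i ≤ x → x ≤ v' m i → |(ν (Iic x)).toReal * f m - (i : ℕ)| ≤ C
  sup : ∀ m, ∀ᵐ x ∂ν, (∃ i, x ∈ Icc (u' m i) (v' m i)) ∨
    ∃ i, x ∈ Icc (u' (m + 1) i) (v' (m + 1) i)

/-- (QT) quantiles -/
def S_Qt : Prop := ∀ ν : Measure ℝ, IsProbabilityMeasure ν → (∀ x, ν {x} = 0) → ∀ s t : ℝ,
  0 ≤ s → s ≤ t → t ≤ 1 → (ν {x | s < (ν (Iic x)).toReal ∧ (ν (Iic x)).toReal < t}).toReal = t - s

/-- (ON) one interval: the bands of the second family whose partners are in `(c, d)` -/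
def S_On : Prop := ∀ C : ℝ, ∃ A : ℝ, 0 ≤ A ∧ ∀ (μ ν : Measure ℝ) (f : ℕ → ℕ)
  (u v u' v' : (m : ℕ) → Fin (f m) → ℝ), Fam μ ν C f u v u' v' → ∀ s : ℝ, 0 < s →
  ∀ K : ℝ, 1 ≤ K → ∀ c d : ℝ, c < d →
  ∃ F : Finset (ℝ × ℝ), (∀ I ∈ F, I.1 ≤ I.2) ∧
    ∑ I ∈ F, (I.2 - I.1) ^ s ≤ A * K * (d - c) ^ s ∧
    ∀ᵐ x ∂ν, (μ (Iic c)).toReal + A / K * (μ (Ioo c d)).toReal < (ν (Iic x)).toReal →
      (ν (Iic x)).toReal < (μ (Iic d)).toReal - A / K * (μ (Ioo c d)).toReal →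
      x ∈ ⋃ I ∈ F, Icc I.1 I.2

/-- (ST) all intervals of a disjoint family -/
def S_St : Prop := ∀ C : ℝ, ∃ A : ℝ, 0 ≤ A ∧ ∀ (μ ν : Measure ℝ) (f : ℕ → ℕ)
  (u v u' v' : (m : ℕ) → Fin (f m) → ℝ), Fam μ ν C f u v u' v' → ∀ s : ℝ, 0 < s →
  ∀ K : ℝ, 1 ≤ K → ∀ G : Finset (ℝ × ℝ), (∀ I ∈ G, I.1 < I.2) →
  (∀ I ∈ G, ∀ K ∈ G, I ≠ K → I.2 ≤ K.1 ∨ K.2 ≤ I.1) →
  ∃ F : Finset (ℝ × ℝ), (∀ I ∈ F, I.1 ≤ I.2) ∧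
    ∑ I ∈ F, (I.2 - I.1) ^ s ≤ A * K * ∑ I ∈ G, (I.2 - I.1) ^ s ∧
    (μ (⋃ I ∈ G, Ioo I.1 I.2)).toReal - A / K ≤ (ν (⋃ I ∈ F, Icc I.1 I.2)).toReal

/-- (CO) the measure theoretic core -/
def S_Co : Prop := ∀ (μ ν : Measure ℝ) (C : ℝ) (f : ℕ → ℕ)
  (u v u' v' : (m : ℕ) → Fin (f m) → ℝ), Fam μ ν C f u v u' v' → upDim ν ≤ upDim μ

/-! ### the density of states measure -/

/-- (AE) almost every energy is in one of two consecutive approximants -/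
def S_Ae : Prop := ∀ lam : ℝ, 0 < lam → ∀ (ν : Measure ℝ) (C : ℝ), IsProbabilityMeasure ν →
  Near lam ν C → ∀ m : ℕ, 1 ≤ m → ∀ᵐ x ∂ν, |tr lam m x| ≤ 1 ∨ |tr lam (m + 1) x| ≤ 1

/-- (AT) no atoms -/
def S_At : Prop := ∀ lam : ℝ, 0 < lam → ∀ (ν : Measure ℝ) (C : ℝ), IsProbabilityMeasure ν →
  Near lam ν C → ∀ x, ν {x} = 0

/-- (MN) monotonicity -/
def S_Mn : Prop := ∀ a b : ℝ, 0 < a → a ≤ b → ∀ (μ ν : Measure ℝ) (C : ℝ),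
  IsProbabilityMeasure μ → IsProbabilityMeasure ν → Near a μ C → Near b ν C → upDim ν ≤ upDim μ

/-! ### existence -/

/-- (EQ) averages of the number of eigenvalues of boxes along the orbit, for every phase -/
def S_Eq : Prop := ∀ (lam : ℝ) (K : ℕ) (x : ℝ), ∃ L : ℝ, ∀ ω : ℝ,
  Tendsto (fun N : ℕ => (∑ n ∈ Finset.range N, (cnt (Vn lam (ω + n * alpha)) K x : ℝ)) / N) atTop
    (𝓝 L)

/-- (CV) the number of eigenvalues of a box per site converges, for every phase -/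
def S_Cv : Prop := ∀ lam x : ℝ, ∃ L : ℝ, ∀ ω : ℝ,
  Tendsto (fun N : ℕ => (cnt (Vn lam ω) N x : ℝ) / N) atTop (𝓝 L)

/-- (EX) existence of the density of states measure -/
def S_Ex : Prop := ∀ lam : ℝ, 0 < lam → ∃ ν : Measure ℝ, IsDOS lam ν

end Pool.Agent.Q266.FD
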